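import Pool.Agent.Helper26.KD.St

/-! # Project CB (MP_65faa7), block K, module Fs: the source and the tails -/

set_option autoImplicit false

open scoped BigOperators ENNReal Topology
open Pool.LE Pool.NL Filter

namespace Pool.KD

/-- the source -/
theorem hFs (hW : StW) : StFs := by
  intro d s m x hm hs hsd
  obtain ⟨h1, -, -, -, -, -⟩ := (hW d m hm).1 x
  set q : ℝ := qq m x with hq
  have hq0 : 0 < q := by linarith
  have e1 : LE.sq x / m ^ 2 = q - 1 := by rw [hq, qq]; ring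
  have e2 : ww (s + 2) m x = q ^ (-(s / 2) - 1) := by
    rw [ww, ← hq]
    congr 1
    ring
  have e3 : q ^ (-(s / 2) - 2) = q ^ (-(s / 2) - 1) / q := by
    rw [← Real.rpow_sub_one hq0.ne']
    congr 1
    ring
  have hWp : 0 < q ^ (-(s / 2) - 1) := Real.rpow_pos_of_pos hq0 _
  set W : ℝ := q ^ (-(s / 2) - 1) with hWd
  have e4 : fs s m x = s * d * W - s * (s + 2) * (W * ((q - 1) / q)) := by
    rw [fs, e1, ← hq, e3]
    ring
  have r0 : 0 ≤ (q - 1) / q := div_nonneg (by linarith) hq0.le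
  have r1 : (q - 1) / q ≤ 1 := by rw [div_le_one hq0]; linarith
  have p1 : W * ((q - 1) / q) ≤ W := by
    have := mul_le_mul_of_nonneg_left r1 hWp.le
    linarith
  have p0 : 0 ≤ W * ((q - 1) / q) := mul_nonneg hWp.le r0
  have hs2 : 0 < s * (s + 2) := by positivity
  rw [e4, e2]
  constructor
  · have := mul_le_mul_of_nonneg_left p1 hs2.le
    linarith
  · have := mul_nonneg hs2.le p0
    linarith

/-- the tails -/
theorem hTl (hW : StW) : StTl := by
  intro d F K m hF hm x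
  obtain ⟨-, hx0, -, -, -, -⟩ := (hW d m hm).1 x
  have hy0 : ∀ y : Zd d, 0 ≤ nn y := fun y => ((hW d m hm).1 y).2.1
  obtain ⟨hlow, -⟩ := (hW d m hm).2.2.2.2.2.2.2 3 x (by norm_num)
  have hm0 : 0 < m := by linarith
  have ha : 0 < m + nn x := by linarith
  have key : ∀ y : Zd d, (if m + nn x < 2 * nn y then |F y| else 0) ≤
      8 / (m + nn x) ^ 3 * ((1 + nn y) ^ 3 * |F y|) := by
    intro y
    split_ifs with h
    · have h1 : m + nn x ≤ 2 * (1 + nn y) := by linarith [hy0 y]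
      have h2 : (m + nn x) ^ 3 ≤ (2 * (1 + nn y)) ^ 3 := pow_le_pow_left₀ ha.le h1 3
      have h3 : 1 ≤ 8 / (m + nn x) ^ 3 * (1 + nn y) ^ 3 := by
        rw [div_mul_eq_mul_div, one_le_div (pow_pos ha 3)]
        calc (m + nn x) ^ 3 ≤ (2 * (1 + nn y)) ^ 3 := h2
          _ = 8 * (1 + nn y) ^ 3 := by ring
      calc |F y| = 1 * |F y| := (one_mul _).symm
        _ ≤ (8 / (m + nn x) ^ 3 * (1 + nn y) ^ 3) * |F y| := mul_le_mul_of_nonneg_right h3 (abs_nonneg _)
        _ = _ := by ring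
    · have := hy0 y
      positivity
  have nonneg : ∀ y : Zd d, 0 ≤ (if m + nn x < 2 * nn y then |F y| else 0) := by
    intro y
    split_ifs
    · exact abs_nonneg _
    · exact le_rfl
  have hs2 : Summable (fun y => 8 / (m + nn x) ^ 3 * ((1 + nn y) ^ 3 * |F y|)) := hF.summ.mul_left _
  have hs1 : Summable (fun y => if m + nn x < 2 * nn y then |F y| else 0) :=
    Summable.of_nonneg_of_le nonneg key hs2
  refine ⟨hs1, ?_⟩
  have hK0 : 0 ≤ K := le_trans (tsum_nonneg fun y => by have := hy0 y; positivity) hF.le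
  have h1 : ∑' y, (if m + nn x < 2 * nn y then |F y| else 0) ≤ 8 / (m + nn x) ^ 3 * K := by
    calc ∑' y, (if m + nn x < 2 * nn y then |F y| else 0)
        ≤ ∑' y, 8 / (m + nn x) ^ 3 * ((1 + nn y) ^ 3 * |F y|) := hs1.tsum_le_tsum key hs2
      _ = 8 / (m + nn x) ^ 3 * ∑' y, (1 + nn y) ^ 3 * |F y| := tsum_mul_left
      _ ≤ 8 / (m + nn x) ^ 3 * K := mul_le_mul_of_nonneg_left hF.le (by positivity)
  have e1 : (1 + nn x / m) ^ (-(3 : ℝ)) = m ^ 3 / (m + nn x) ^ 3 := by
    rw [Real.rpow_neg (by positivity)]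
    have h3 : (1 + nn x / m) ^ (3 : ℝ) = (1 + nn x / m) ^ (3 : ℕ) := by
      rw [← Real.rpow_natCast]
      norm_num
    rw [h3]
    field_simp
  rw [e1] at hlow
  have h2 : 8 / (m + nn x) ^ 3 * K = 8 * K / m ^ 3 * (m ^ 3 / (m + nn x) ^ 3) := by
    field_simp
  rw [h2] at h1
  exact h1.trans (mul_le_mul_of_nonneg_left hlow (by positivity))

end Pool.KD
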